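import Mathlib

/-!
# Project AB (helper29): a positive proportion of all CM types of all abelian CM fields

**Theorem.** There is a number `g₀` such that for every CM field `E` of degree `2 g`, `g ≥ g₀`, which
is abelian over `ℚ` (for instance a cyclotomic field), at least 16 percent of the `2 ^ g` CM types of
`E` are nondegenerate (so that the Hodge conjecture holds for all powers of the abelian varieties of
these types). No such bound holds for multiquadratic fields with a constant above `1 / 2`.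

`G` is a finite commutative group (the Galois group) of order `2 g` with an element `c` of order two
(complex conjugation). A type is a set `Ψ` that contains exactly one element of each pair `x, c x`.
It is degenerate if and only if the sum of some odd character `χ` (`χ c = -1`) over `Ψ` is zero.
The statements `S_XXX` are lemma jobs; each one is independent of the others unless its docstring
says so. All proofs are elementary.
-/

set_option autoImplicit false

open Finset Real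
open scoped Classical

namespace Pool.Agent.Q29.AB

/-- The proportion of the most frequent number of elements of a random subset of a set with `k`
elements. -/
noncomputable def rho (k : ℕ) : ℝ := (k.choose (k / 2) : ℝ) / 2 ^ k

/-- The types of `G`: the sets `Ψ` that contain exactly one of `x`, `c x` for each `x`. -/
noncomputable def types {G : Type} [CommGroup G] [Fintype G] (c : G) : Finset (Finset G) :=
  univ.filter fun Ψ => ∀ x, c * x ∈ Ψ ↔ x ∉ Ψ

/-- The sum of the values of the character `χ` over `Ψ`. -/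
noncomputable def charSum {G : Type} [CommGroup G] (χ : G →* ℂˣ) (Ψ : Finset G) : ℂ :=
  ∑ x ∈ Ψ, (χ x : ℂ)

/-- The types killed by `χ`. -/
noncomputable def killed {G : Type} [CommGroup G] [Fintype G] (c : G) (χ : G →* ℂˣ) :
    Finset (Finset G) := (types c).filter fun Ψ => charSum χ Ψ = 0

/-- The number of the elements of `Ψ` in the kernel of `χ` is odd. -/
def OddOn {G : Type} [CommGroup G] (χ : G →* ℂˣ) (Ψ : Finset G) : Prop :=
  Odd (Ψ.filter fun x => χ x = 1).card

/-- **JOB RHO** (Mathlib only). Wallis.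
Proof: `rho (2 m) = centralBinom m / 4 ^ m`. `Real.Wallis.W_eq_factorial_ratio` and
`Real.Wallis.le_W` give `rho (2 m) ^ 2 = 1 / (W m * (2 m + 1)) ≤ 4 (m + 1) / (π (2 m + 1) ^ 2)
≤ 1 / (π m)`; this is the third inequality, and the second one for even `k = 2 m`. For odd
`k = 2 m + 1` we have `rho (2 m + 1) = rho (2 m + 2)` because
`(2 m + 2).choose (m + 1) = 2 * (2 m + 1).choose m`, so `rho k ^ 2 ≤ 2 / (π (k + 1))`. The first
inequality: for `k ≥ 1`, `2 * k.choose (k / 2) ≤ 2 ^ k`: for `k = 2 m`, `m ≥ 1`, it is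
`2 * centralBinom m ≤ 4 ^ m`, and for odd `k` two equal middle coefficients are at most the sum of
all. -/
def S_RHO : Prop :=
  (∀ k, 0 < rho k ∧ rho k ≤ 1) ∧ (∀ k, 1 ≤ k → rho k ≤ 1 / 2) ∧
  (∀ k : ℕ, rho k ^ 2 * (π * k) ≤ 2) ∧ (∀ k : ℕ, rho (2 * k) ^ 2 * (π * k) ≤ 1)

/-- **JOB TOT** (Mathlib only).
Proof: by `Nat.recOnPosPrimePosCoprime` or through the factorization; it suffices to show that
`f n = φ n ^ 2 / n` is multiplicative with `f (2 ^ a) ≥ 1 / 2` and `f (p ^ a) ≥ 1` for odd primes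
`p`: `f (p ^ a) = p ^ (a - 2) (p - 1) ^ 2 ≥ (p - 1) ^ 2 / p`. So: prove `n ≤ φ n ^ 2` for odd `n` by
that induction, and for `n = 2 ^ a * m`, `m` odd, `a ≥ 1`, `φ n = 2 ^ (a - 1) φ m` and
`2 ^ a ≤ 2 * (2 ^ (a - 1)) ^ 2`. -/
def S_TOT : Prop := ∀ n : ℕ, n ≤ 2 * Nat.totient n ^ 2

/-- **JOB RATE** (uses `S_RHO` and `S_TOT` as hypotheses).
Proof: put `k = 2 g / n`, so `n k = 2 g`, `k ≥ 1`, `rho k ≤ 1 / 2` and `rho k ^ 2 ≤ 1 / k`
(as `2 / π ≤ 1`). If `n ^ 4 ≤ g` then `rho k ^ (φ n) ≤ rho k ^ 4 ≤ 1 / k ^ 2 = n ^ 2 / (4 g ^ 2)`, so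
`g * rho k ^ (φ n) ≤ n ^ 2 / (4 g) ≤ 1 / (4 √g)`. If `n ^ 4 > g` then `g < n ^ 4 ≤ 16 (φ n) ^ 8` by
`S_TOT`, so with `t = φ n`: `g * rho k ^ t ≤ 16 t ^ 8 / 2 ^ t`, which tends to zero as `t → ∞`
(`tendsto_pow_const_div_const_pow_of_one_lt`), and `t → ∞` as `g < 16 t ^ 8`. -/
def S_RATE : Prop := S_RHO → S_TOT → ∀ ε : ℝ, 0 < ε → ∃ g₀ : ℕ, ∀ g n : ℕ, g₀ ≤ g → n ∣ 2 * g →
  4 ≤ Nat.totient n → (g : ℝ) * rho (2 * g / n) ^ Nat.totient n ≤ ε

/-- **JOB LO** (Mathlib only). A Littlewood-Offord inequality.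
`f` is a function on the finite set `T` with values in a rational vector space; the sets `S j ⊆ T`
with `k` elements each are disjoint, `f = v j` on `S j`, and the vectors `v j`, `j < d`, are linearly
independent. Then at most `2 ^ #T * rho k ^ d` subsets `U` of `T` have the sum `w`.
Proof: let `R = T \ ⋃ S j`. There are linear functions `l j` with `l j (v i) = 1` if `i = j` and `= 0`
otherwise (`LinearIndependent.extend`, or `hv.repr` and `LinearMap.exists_extend`). For `U` with sum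
`w`, applying `l j` gives `#(U ∩ S j) = l j w - ∑ i ∈ U ∩ R, l j (f i)`; so for given `A = U ∩ R` the
numbers `#(U ∩ S j)` are determined, `U` is determined by `A` and the sets `U ∩ S j`, and there are at
most `∏ j, k.choose (a j) ≤ (k.choose (k / 2)) ^ d` of them (`Nat.choose_le_middle`,
`Finset.card_powersetCard`, `Fintype.card_piFinset`). There are `2 ^ (#T - d k)` sets `A`. -/
def S_LO : Prop := ∀ (ι V : Type) [AddCommGroup V] [Module ℚ V] (T : Finset ι) (f : ι → V)
  (d k : ℕ) (S : Fin d → Finset ι) (v : Fin d → V) (w : V),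
  (∀ j, S j ⊆ T) → (∀ i j, i ≠ j → Disjoint (S i) (S j)) → (∀ j, (S j).card = k) →
  LinearIndependent ℚ v → (∀ j, ∀ i ∈ S j, f i = v j) →
  (((T.powerset.filter fun U => ∑ i ∈ U, f i = w).card : ℕ) : ℝ) ≤ 2 ^ T.card * rho k ^ d

/-- **JOB TRA** (Mathlib only). Types are the subsets of a transversal. If `T` contains exactly one
of `x, c x` for each `x` (that is, `T` is itself a type) then `#T = g`, `Ψ ↦ Ψ ∩ T` is a bijection
of the types onto the subsets of `T`, and for an odd character `χ` the sum over `Ψ` is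
`2 ∑_{Ψ ∩ T} χ - ∑_T χ`.
Proof: `x ∈ Ψ \ T` if and only if `c x ∈ T \ Ψ`, and `χ (c x) = - χ x`. The inverse map is
`U ↦ U ∪ c (T \ U)`. -/
def S_TRA : Prop := ∀ (G : Type) [CommGroup G] [Fintype G] (c : G) (g : ℕ) (T : Finset G),
  c * c = 1 → Fintype.card G = 2 * g → T ∈ types c →
  T.card = g ∧ (Set.BijOn (fun Ψ : Finset G => Ψ ∩ T) (types c) (T.powerset)) ∧
  ∀ (χ : G →* ℂˣ) (Ψ : Finset G), χ c = -1 → Ψ ∈ types c →
    charSum χ Ψ = 2 * charSum χ (Ψ ∩ T) - charSum χ T

/-- **JOB CHI** (uses `S_LO`, `S_TRA` as hypotheses). The number of the types killed by an odd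
character of order `n`.
Proof: `n` is even as `χ c = -1`, and the image of `χ` is the group of the `n`-th roots of unity
(`orderOf χ = n`: the image is a finite subgroup of `ℂˣ`, hence cyclic, its order is the exponent
`n`). Let `z` be a primitive `n`-th root of unity, `z ^ (n / 2) = -1`; let `S j = {x | χ x = z ^ j}`;
it is a coset of the kernel and has `k = 2 g / n` elements. `T = ⋃_{j < n / 2} S j` is a type. The
numbers `z ^ j`, `j < φ n`, are linearly independent over `ℚ` (the minimal polynomial is the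
cyclotomic polynomial; `IsPrimitiveRoot.minpoly_eq_cyclotomic_of_irreducible`,
`linearIndependent_pow`), and `φ n ≤ n / 2` as `n` is even. Use `S_LO` with `V = ℂ`, `f = χ`,
`w = ½ ∑_T χ` and `S_TRA`. -/
def S_CHI : Prop := S_LO → S_TRA → ∀ (G : Type) [CommGroup G] [Fintype G] (c : G) (g n : ℕ)
  (χ : G →* ℂˣ), c * c = 1 → Fintype.card G = 2 * g → χ c = -1 → orderOf χ = n →
  (((killed c χ).card : ℕ) : ℝ) ≤ 2 ^ g * rho (2 * g / n) ^ Nat.totient n

/-- **JOB SIX** (uses `S_TRA` as a hypothesis). The types killed by an odd character `χ` of order six,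
and those among them with an odd number of elements in the kernel of `χ ^ 3`.
Proof: `T = {x | χ x ^ 3 = 1}` is a type (as `χ c ^ 3 = -1`), the disjoint union of the three sets
`S j = {x | χ x = ω ^ j}`, `ω` a primitive third root of unity, `j < 3`, which have `k` elements each
(cosets of the kernel of `χ`; `6 k = 2 g`). By `S_TRA` and `∑_T χ = k (1 + ω + ω ^ 2) = 0` the type `Ψ`
is killed if and only if `a 0 + a 1 ω + a 2 ω ^ 2 = 0` with `a j = #(Ψ ∩ S j)`, that is
`a 0 = a 1 = a 2`. So the number of these `Ψ` with `#(Ψ ∩ T) = m` is zero unless `m = 3 j`, and then it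
is `(k.choose j) ^ 3`; `3 j` is odd if and only if `j` is. -/
def S_SIX : Prop := S_TRA → ∀ (G : Type) [CommGroup G] [Fintype G] (c : G) (g k : ℕ)
  (χ : G →* ℂˣ), c * c = 1 → Fintype.card G = 2 * g → χ c = -1 → orderOf χ = 6 → g = 3 * k →
  (killed c χ).card ≤ ∑ j ∈ range (k + 1), (k.choose j) ^ 3 ∧
  ((killed c χ).filter fun Ψ => OddOn (χ ^ 3) Ψ).card ≤
    ∑ j ∈ (range (k + 1)).filter Odd, (k.choose j) ^ 3

/-- **JOB CUBE** (uses `S_RHO` as a hypothesis).
Proof: `∑_j C(k, j) ^ 3 ≤ C(k, k/2) ∑_j C(k, j) ^ 2 = C(k, k/2) C(2 k, k)`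
(`Nat.choose_le_middle`, `Nat.sum_range_choose_mul_choose` or `Nat.add_choose_eq`/
`Nat.sum_range_choose_sq`), and `rho k * rho (2 k) ≤ √(2 / (π k)) √(1 / (π k)) = √2 / (π k)`.
If `4 ∣ k` then `∑_j (-1) ^ j C(k, j) ^ 2` is the coefficient of `X ^ k` in
`(1 - X) ^ k (1 + X) ^ k = (1 - X ^ 2) ^ k`, that is `C(k, k/2) ≥ 0`; so the sum of `C(k, j) ^ 2` over
odd `j` is at most `C(2 k, k) / 2`. -/
def S_CUBE : Prop := S_RHO → ∀ k : ℕ, 1 ≤ k →
  (∑ j ∈ range (k + 1), ((k.choose j : ℕ) : ℝ) ^ 3) * (π * k) ≤ √2 * 8 ^ k ∧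
  (4 ∣ k → (∑ j ∈ (range (k + 1)).filter Odd, ((k.choose j : ℕ) : ℝ) ^ 3) * (2 * π * k) ≤
    √2 * 8 ^ k)

/-- **JOB PAR** (Mathlib only). If `4 ∣ g` the parities of the numbers of the elements of a type in the
kernels of all odd quadratic characters are the same.
Proof: let `χ ≠ ψ`. Let `D = {x | χ x = 1, ψ x = -1}`. As `χ` and `ψ` are odd,
`c D = {x | χ x = -1, ψ x = 1}`, and `Ψ` contains exactly one of `x, c x` for each `x ∈ D`, so
`#(Ψ ∩ D) + #(Ψ ∩ c D) = #D`. The set `{x | χ x ≠ ψ x}` is the complement of the kernel of the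
character `χ ψ ≠ 1` of order two, so it has `g` elements, `#D = g / 2` is even, and
`#(Ψ ∩ ker χ) - #(Ψ ∩ ker ψ) = #(Ψ ∩ D) - #(Ψ ∩ c D)` is even. -/
def S_PAR : Prop := ∀ (G : Type) [CommGroup G] [Fintype G] (c : G) (g : ℕ) (χ ψ : G →* ℂˣ)
  (Ψ : Finset G), c * c = 1 → Fintype.card G = 2 * g → 4 ∣ g → χ c = -1 → ψ c = -1 → χ ^ 2 = 1 →
  ψ ^ 2 = 1 → Ψ ∈ types c → (OddOn χ Ψ ↔ OddOn ψ Ψ)

/-- **JOB TWO** (uses `S_TRA` as a hypothesis). If a type has an odd number of elements in the kernel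
of an odd quadratic character `χ₀` and `4 ∣ g` then it is not killed by any odd character `χ` of
2-power order.
Proof: let `T = ker χ₀`, a type (as `χ₀ c = -1` and `χ₀ = ± 1`). By `S_TRA` the sum of `χ` over `Ψ` is
`2 ∑_{Ψ ∩ T} χ - ∑_T χ`. If `χ = χ₀` this is `2 #(Ψ ∩ T) - g ≠ 0` as `#(Ψ ∩ T)` is odd and
`4 ∣ g`. If `χ ≠ χ₀` then `χ` is not trivial on the subgroup `T` of index two (a character trivial
on `T` is `1` or `χ₀`), so `∑_T χ = 0` and the sum is `2 ∑_{Ψ ∩ T} χ`. Let `A` be the ring of the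
algebraic integers in `ℂ` (`integralClosure ℤ ℂ`) and `P` a maximal ideal of `A` containing `2` (`2`
is not a unit of `A` as `1 / 2` is not integral). The values of `χ` are in `A`, and
`(χ x - 1) ^ (2 ^ a) = χ x ^ (2 ^ a) - 1 = 0` in the field `A / P` of characteristic two, so `χ x = 1`
in `A / P`, and `∑_{Ψ ∩ T} χ = #(Ψ ∩ T) = 1 ≠ 0` in `A / P`. -/
def S_TWO : Prop := S_TRA → ∀ (G : Type) [CommGroup G] [Fintype G] (c : G) (g a : ℕ)
  (χ₀ χ : G →* ℂˣ) (Ψ : Finset G), c * c = 1 → Fintype.card G = 2 * g → 4 ∣ g → χ₀ c = -1 →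
  χ₀ ^ 2 = 1 → χ c = -1 → χ ^ (2 ^ a) = 1 → Ψ ∈ types c → OddOn χ₀ Ψ → charSum χ Ψ ≠ 0

/-- **JOB CNT** (uses `S_TRA` as a hypothesis). Counting types and odd characters.
Proof: (0) there is a type (choose one element out of each pair), so there are `2 ^ g` types by
`S_TRA`. (1) The map which exchanges `x₀ ∈ Ψ` and `c x₀` (`Ψ ↦ symmDiff Ψ {x₀, c x₀}`, `x₀ = 1`) is an
involution on the types; exactly one of `1, c` is in the kernel of `χ₀`, so it changes the parity of
`#(Ψ ∩ ker χ₀)`. (2) There are `2 g` characters (`CommGroup.card_monoidHom_of_hasEnoughRootsOfUnity`)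
and some `χ` has `χ c ≠ 1` (`CommGroup.exists_apply_ne_one_of_hasEnoughRootsOfUnity`), so `χ c = -1`,
and multiplication by it exchanges the even and the odd characters. -/
def S_CNT : Prop := S_TRA → ∀ (G : Type) [CommGroup G] [Fintype G] [Fintype (G →* ℂˣ)] (c : G)
  (g : ℕ), c * c = 1 → c ≠ 1 → Fintype.card G = 2 * g →
  (types c).card = 2 ^ g ∧
  (∀ χ₀ : G →* ℂˣ, χ₀ c = -1 → χ₀ ^ 2 = 1 →
    2 * ((types c).filter fun Ψ => OddOn χ₀ Ψ).card = 2 ^ g) ∧
  (univ.filter fun χ : G →* ℂˣ => χ c = -1).card = g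

/-- **JOB UNI** (Mathlib only). The union bound for characters of order at least three, which come in
pairs `χ, χ⁻¹`.
Proof: the sum of `χ⁻¹` over `Ψ` is the complex conjugate of the sum of `χ` (values of absolute value
one), so `killed c χ⁻¹ = killed c χ`. If `Ψ` belongs to the union then it belongs to the sets of at
least two `χ ∈ X` (`χ ≠ χ⁻¹` as the order is not `1` or `2`); count the pairs `(χ, Ψ)`. -/
def S_UNI : Prop := ∀ (G : Type) [CommGroup G] [Fintype G] (c : G) (X : Finset (G →* ℂˣ))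
  (P : Finset G → Prop), (∀ χ ∈ X, χ⁻¹ ∈ X) → (∀ χ ∈ X, 3 ≤ orderOf χ) →
  2 * ((types c).filter fun Ψ => P Ψ ∧ ∃ χ ∈ X, charSum χ Ψ = 0).card ≤
    ∑ χ ∈ X, ((killed c χ).filter P).card

/-- The good types: no odd character kills them. -/
noncomputable def good {G : Type} [CommGroup G] [Fintype G] (c : G) : Finset (Finset G) :=
  (types c).filter fun Ψ => ∀ χ : G →* ℂˣ, χ c = -1 → charSum χ Ψ ≠ 0

/-- **JOB MAINA** (uses the other statements as hypotheses). The case `4 ∣ g` with an odd quadratic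
character.
Proof: let `χ₀` be an odd quadratic character, `X` the set of all odd characters, `#X = g` (`S_CNT`),
`ε = 1 / 500`, `g ≥ g₀(ε)` from `S_RATE`. One half of all types are odd on `ker χ₀` (`S_CNT`). Such a
type which is not good is killed by some `χ ∈ X` of order `n`, `n` even; `n` is not a power of two by
`S_TWO`, so `n = 6` or `φ n ≥ 4` (`n` even with `φ n ≤ 3` is `2, 4, 6`). The types killed by some
`χ ∈ X` with `φ n ≥ 4` are at most `2 ^ g ∑_χ rho (2 g / n) ^ (φ n) ≤ 2 ^ g ε` by `S_CHI` and `S_RATE`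
(`n ∣ 2 g` as `n = orderOf χ` divides the order of the dual group, or the exponent of `G`). For
`n = 6`: `3 ∣ g`, `g = 3 k`, `4 ∣ k`; `χ ^ 3` is an odd quadratic character, so `OddOn χ₀` is `OddOn (χ ^ 3)`
by `S_PAR`, and by `S_SIX`, `S_CUBE` there are at most
`√2 * 8 ^ k / (2 π k) = 2 ^ g * 3 √2 / (2 π g)` such types for one `χ`, and at most
`(g / 2) * 2 ^ g * 3 √2 / (2 π g) = 2 ^ g * 3 √2 / (4 π) ≤ 2 ^ g * 0.3377` for all of them by `S_UNI`.
`1 / 2 - 0.3377 - 0.002 ≥ 0.16` (`Real.pi_gt_d4`, `√2 < 1.41422`). -/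
def S_MAINA : Prop := S_RHO → S_TOT → S_RATE → S_LO → S_TRA → S_CHI → S_SIX → S_CUBE → S_PAR →
  S_TWO → S_CNT → S_UNI →
  ∃ g₀ : ℕ, ∀ (G : Type) [CommGroup G] [Fintype G] (c : G) (g : ℕ) (χ₀ : G →* ℂˣ), g₀ ≤ g →
    c * c = 1 → c ≠ 1 → Fintype.card G = 2 * g → 4 ∣ g → χ₀ c = -1 → χ₀ ^ 2 = 1 →
    (4 / 25 : ℝ) * 2 ^ g ≤ (((good c).card : ℕ) : ℝ)

/-- **JOB MAINB** (uses the other statements as hypotheses). The other cases.
Proof: let `X` be the set of all odd characters, `#X = g`. A type which is not good is killed by some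
`χ ∈ X` of order `n`, `n` even, so `n = 2, 4, 6` or `φ n ≥ 4`. The last ones are at most `2 ^ g ε`, as
in the case A. (1) `4 ∣ g` and there is no odd quadratic character: then `n ≠ 2`, and `n ≠ 6` as `χ ^ 3`
would be one. For `n = 4`, `S_CHI` and `S_RHO` give `rho (g / 2) ^ 2 ≤ 4 / (π g)` for one character, and
`S_UNI` gives `2 / π ≤ 0.64` for all (at most `g` characters). (2) `4 ∤ g`: for `n = 6`, `g = 3 k`,
`S_SIX`, `S_CUBE` and `S_UNI` (with `P = True`) give at most
`(g / 2) √2 * 8 ^ k / (π k) = 2 ^ g * 3 √2 / (2 π) ≤ 2 ^ g * 0.6755`. The characters with `χ ^ 4 = 1` form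
a subgroup of the dual group, of order a power of two dividing `2 g`; as `8 ∤ 2 g` there are at most
four of them, and each kills at most `2 ^ g rho (2 g / n) ^ (φ n) ≤ 2 ^ g rho (2 g / n)`,
`rho (2 g / n) ≤ √(2 / (π (g / 2)))` (`2 g / n ≥ g / 2`), which tends to zero. -/
def S_MAINB : Prop := S_RHO → S_TOT → S_RATE → S_LO → S_TRA → S_CHI → S_SIX → S_CUBE → S_CNT →
  S_UNI →
  ∃ g₀ : ℕ, ∀ (G : Type) [CommGroup G] [Fintype G] (c : G) (g : ℕ), g₀ ≤ g →
    c * c = 1 → c ≠ 1 → Fintype.card G = 2 * g →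
    (¬ 4 ∣ g ∨ ∀ χ : G →* ℂˣ, χ c = -1 → χ ^ 2 ≠ 1) →
    (4 / 25 : ℝ) * 2 ^ g ≤ (((good c).card : ℕ) : ℝ)

/-- **JOB FOU** (Mathlib only). A good type has no relations.
Proof: let `e x = 1` on `Ψ` and `-1` outside. For every character `χ`,
`0 = ∑_y χ y ∑_x m x e (y x) = (∑_x m x χ x⁻¹) (∑_z e z χ z)`. If `χ` is odd then
`∑_z e z χ z = 2 ∑_Ψ χ ≠ 0`, so `∑_x m x χ x⁻¹ = 0`; if `χ` is even (`χ c = 1`, the only other case as
`χ c ^ 2 = 1`) this holds since `m (c x) = - m x`. So `m` is orthogonal to all characters, and `m = 0`: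
the `#G` characters are linearly independent functions (`linearIndependent_monoidHom`,
`CommGroup.card_monoidHom_of_hasEnoughRootsOfUnity`), so they span all functions. -/
def S_FOU : Prop := ∀ (G : Type) [CommGroup G] [Fintype G] (c : G) (Ψ : Finset G) (m : G → ℤ),
  c * c = 1 → Ψ ∈ good c → (∀ x, m (c * x) = - m x) →
  (∀ y, ∑ x, m x * (if y * x ∈ Ψ then 1 else -1) = 0) → m = 0

end Pool.Agent.Q29.AB
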