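import Mathlib
import Pool.Agent.Q29.AB.Stm

/-!
# Project AB, second part (helper29): odd weights

The theorem of the first part (`Stm.lean`) for types with weights: `M` is a function on `G` with
nonzero (for some statements: odd) integral values and `M (c x) = M x`. The sign function of the type
`Ψ` is multiplied by `M`. This is what is needed for abelian varieties with multiplication by an
abelian CM field and arbitrary odd relative rank (the weights are the differences of the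
multiplicities), and for abelian varieties over finite fields with arbitrary slopes.
The proofs are those of the first part, with a few changes; the files of the first part
(`Pool.Agent.Q129.AB.*`, `Pool.Agent.Q154.AB.*`, `Pool.Agent.Q261.AB.*`) can be used and adapted.
-/

set_option autoImplicit false

open Finset Real
open scoped Classical

namespace Pool.Agent.Q29.AB

/-- The sum of `M χ` over `Ψ`. -/
noncomputable def wSum {G : Type} [CommGroup G] (M : G → ℤ) (χ : G →* ℂˣ) (Ψ : Finset G) : ℂ :=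
  ∑ x ∈ Ψ, (M x : ℂ) * (χ x : ℂ)

/-- The types killed by `χ`, with the weights `M`. -/
noncomputable def killedW {G : Type} [CommGroup G] [Fintype G] (c : G) (M : G → ℤ)
    (χ : G →* ℂˣ) : Finset (Finset G) := (types c).filter fun Ψ => wSum M χ Ψ = 0

/-- The sum of `M χ` over `Ψ` for a quadratic character, as an integer. -/
noncomputable def sInt {G : Type} [CommGroup G] (M : G → ℤ) (χ : G →* ℂˣ) (Ψ : Finset G) : ℤ :=
  ∑ x ∈ Ψ, M x * (if χ x = 1 then 1 else -1)

/-- The good types for the weights `M`: no odd character kills them. -/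
noncomputable def goodW {G : Type} [CommGroup G] [Fintype G] (c : G) (M : G → ℤ) :
    Finset (Finset G) :=
  (types c).filter fun Ψ => ∀ χ : G →* ℂˣ, χ c = -1 → wSum M χ Ψ ≠ 0

/-- **JOB ELO** (Mathlib only). The theorem of Erdos on the problem of Littlewood and Offord.
Proof: let `N = {i ∈ S | M i < 0}`. The map `U ↦ symmDiff U N` is injective, and
`∑_{U} M = ∑_{symmDiff U N} |M| - ∑_N |M|`. So the sets `symmDiff U N` all have the same sum of the
positive weights `|M|`; they form an antichain of subsets of `S`. Apply `IsAntichain.sperner` to the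
type of the elements of `S`. -/
def S_ELO : Prop := ∀ (ι : Type) (S : Finset ι) (M : ι → ℤ) (a : ℤ), (∀ i ∈ S, M i ≠ 0) →
  (S.powerset.filter fun U => ∑ i ∈ U, M i = a).card ≤ S.card.choose (S.card / 2)

/-- **JOB LOW** (uses `S_ELO` as a hypothesis). As `S_LO`, with weights.
Proof: as for `S_LO`; the numbers `∑_{i ∈ U ∩ S j} M i` are determined by `U ∩ R`, and by `S_ELO` there
are at most `k.choose (k / 2)` sets `U ∩ S j` with a given sum of the weights. -/
def S_LOW : Prop := S_ELO → ∀ (ι V : Type) [AddCommGroup V] [Module ℚ V] (T : Finset ι)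
  (f : ι → V) (M : ι → ℤ) (d k : ℕ) (S : Fin d → Finset ι) (v : Fin d → V) (w : V),
  (∀ j, S j ⊆ T) → (∀ i j, i ≠ j → Disjoint (S i) (S j)) → (∀ j, (S j).card = k) →
  LinearIndependent ℚ v → (∀ i, M i ≠ 0) → (∀ j, ∀ i ∈ S j, f i = M i • v j) →
  (((T.powerset.filter fun U => ∑ i ∈ U, f i = w).card : ℕ) : ℝ) ≤ 2 ^ T.card * rho k ^ d

/-- **JOB TRAW** (Mathlib only). The last part of `S_TRA` with weights.
Proof: `x ∈ Ψ \ T` if and only if `c x ∈ T \ Ψ`, and `M (c x) χ (c x) = - M x χ x`. -/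
def S_TRAW : Prop := ∀ (G : Type) [CommGroup G] [Fintype G] (c : G) (M : G → ℤ) (T : Finset G),
  c * c = 1 → T ∈ types c → (∀ x, M (c * x) = M x) → ∀ (χ : G →* ℂˣ) (Ψ : Finset G), χ c = -1 →
    Ψ ∈ types c → wSum M χ Ψ = 2 * wSum M χ (Ψ ∩ T) - wSum M χ T

/-- **JOB CHIW** (uses `S_ELO`, `S_LOW`, `S_TRA`, `S_TRAW` as hypotheses). As `S_CHI`, with weights.
Proof: as for `S_CHI`, with `f x = M x χ x`. -/
def S_CHIW : Prop := S_ELO → S_LOW → S_TRA → S_TRAW → ∀ (G : Type) [CommGroup G] [Fintype G]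
  (c : G) (M : G → ℤ) (g n : ℕ) (χ : G →* ℂˣ), c * c = 1 → Fintype.card G = 2 * g →
  (∀ x, M x ≠ 0) → (∀ x, M (c * x) = M x) → χ c = -1 → orderOf χ = n →
  (((killedW c M χ).card : ℕ) : ℝ) ≤ 2 ^ g * rho (2 * g / n) ^ Nat.totient n

/-- The sum of the weights with the signs given by `U ⊆ S`. -/
noncomputable def sg {ι : Type} (S : Finset ι) (M : ι → ℤ) (U : Finset ι) : ℤ :=
  ∑ i ∈ S, M i * (if i ∈ U then 1 else -1)

/-- **JOB HAL** (Mathlib only). For odd weights and an even number of elements, pairs of subsets with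
the same signed sum: at most one half of them have a sum that is `2` modulo `4`.
Proof: all signed sums are even (`#S` is even). For a pair `(U, U')` for which some `j ∈ S` belongs to
both or to none of the sets, let `j` be the least such element for some well ordering of `ι` (or
enumerate `S`), and toggle `j` in both sets. This is an involution of these pairs, it changes both
signed sums by the same `± 2 M j`, which is `2` modulo `4`, so it exchanges the pairs with sum `0` and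
with sum `2` modulo `4`. The other pairs have `U' = S \ U`, the signed sums are opposite, and so
zero. -/
def S_HAL : Prop := ∀ (ι : Type) (S : Finset ι) (M : ι → ℤ), Even S.card → (∀ i ∈ S, Odd (M i)) →
  2 * ((S.powerset ×ˢ S.powerset).filter fun u => sg S M u.1 = sg S M u.2 ∧
    sg S M u.1 % 4 = 2).card ≤
  ((S.powerset ×ˢ S.powerset).filter fun u => sg S M u.1 = sg S M u.2).card

/-- **JOB SIXW** (uses `S_ELO`, `S_TRA`, `S_TRAW`, `S_HAL` as hypotheses). Odd characters of order six,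
with weights.
Proof: `T = {x | χ x ^ 3 = 1}` is a type, the disjoint union of the sets `S j = {x | χ x = ω ^ j}`,
`j < 3`, with `k` elements each. For a type `Ψ` let `A j = sg (S j) M (Ψ ∩ S j)`. By `S_TRAW` the sum of
`M χ` over `Ψ` is `A 0 + A 1 ω + A 2 ω ^ 2`, and it is zero if and only if `A 0 = A 1 = A 2`. The types
correspond to the triples of subsets of `S 0, S 1, S 2` (`S_TRA`). For a given pair of subsets of
`S 1, S 2` with `A 1 = A 2` there are at most `k.choose (k / 2) = 2 ^ k rho k` subsets of `S 0` with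
`A 0 = A 1` (`S_ELO`, as `sg S M U = 2 ∑_U M - ∑_S M`). There are at most
`(2 k).choose k = 4 ^ k rho (2 k)` pairs with `A 1 = A 2` (`S_ELO` for the disjoint union of `S 1` and
`S 2` with the weights `M` and `- M`). This is the first inequality. For the second one,
`sInt M (χ ^ 3) Ψ = A 0 + A 1 + A 2 = 3 A 1`, so `A 1` is `2` modulo `4` (`4 ∣ k`, so `A 1` is even).
Let `N j v` be the number of the subsets of `S j` with signed sum `v`; by Cauchy and Schwarz and
`S_HAL`, the sum over the `v` which are `2` modulo `4`,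
`∑ N 1 v * N 2 v ≤ (∑ (N 1 v) ^ 2) ^ (1/2) (∑ (N 2 v) ^ 2) ^ (1/2) ≤ ½ 4 ^ k rho (2 k)`, as
`∑_v (N j v) ^ 2 ≤ 4 ^ k rho (2 k)` by `S_ELO` for two copies of `S j`. -/
def S_SIXW : Prop := S_ELO → S_TRA → S_TRAW → S_HAL → ∀ (G : Type) [CommGroup G] [Fintype G]
  (c : G) (M : G → ℤ) (g k : ℕ) (χ : G →* ℂˣ), c * c = 1 → Fintype.card G = 2 * g →
  (∀ x, M x ≠ 0) → (∀ x, M (c * x) = M x) → χ c = -1 → orderOf χ = 6 → g = 3 * k →
  (((killedW c M χ).card : ℕ) : ℝ) ≤ 2 ^ g * (rho k * rho (2 * k)) ∧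
  (4 ∣ k → (∀ x, Odd (M x)) →
    ((((killedW c M χ).filter fun Ψ => sInt M (χ ^ 3) Ψ % 4 = 2).card : ℕ) : ℝ) ≤
      2 ^ g * (rho k * rho (2 * k) / 2))

/-- **JOB PARW** (Mathlib only). As `S_PAR`, with odd weights.
Proof: `sInt M χ Ψ - sInt M ψ Ψ` is twice the sum of the numbers `± M x` over the `x ∈ Ψ` with
`χ x ≠ ψ x`. If `χ ≠ ψ` the set `{x | χ x ≠ ψ x}` has `g` elements (complement of the kernel of `χ ψ`)
and is stable under `c` (both characters are odd), so `Ψ` contains exactly `g / 2` of them, an even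
number, and the sum of an even number of odd integers is even. -/
def S_PARW : Prop := ∀ (G : Type) [CommGroup G] [Fintype G] (c : G) (M : G → ℤ) (g : ℕ)
  (χ ψ : G →* ℂˣ) (Ψ : Finset G), c * c = 1 → Fintype.card G = 2 * g → 4 ∣ g →
  (∀ x, Odd (M x)) → χ c = -1 → ψ c = -1 → χ ^ 2 = 1 → ψ ^ 2 = 1 → Ψ ∈ types c →
  (sInt M χ Ψ % 4 = 2 ↔ sInt M ψ Ψ % 4 = 2)

/-- **JOB TWOW** (Mathlib only). As `S_TWO`, with odd weights.
Proof: let `T = ker χ₀` and `e x = 1` on `Ψ`, `-1` outside. As `x ∈ Ψ \ T` iff `c x ∈ T \ Ψ`,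
`wSum M χ Ψ = ∑_{x ∈ T} e x M x χ x` for all odd `χ`; for `χ₀` this is the integer
`s = sInt M χ₀ Ψ = ∑_{x ∈ T} e x M x ≠ 0`. Let `χ ≠ χ₀`; then `∑_T χ = 0` (a character which is trivial on
`T` is `1` or `χ₀`). Write `e x M x = 1 + 2 w x` with integers `w x`; so
`wSum M χ Ψ = 2 ∑_T w χ`, and `2 ∑_T w = s - g` is `2` modulo `4`, so `∑_T w` is odd. In the field `A / P`
of characteristic two (`A` the ring of the algebraic integers, `P` a maximal ideal containing `2`)
`χ x = 1`, so `∑_T w χ = ∑_T w = 1 ≠ 0`. -/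
def S_TWOW : Prop := ∀ (G : Type) [CommGroup G] [Fintype G] (c : G) (M : G → ℤ) (g a : ℕ)
  (χ₀ χ : G →* ℂˣ) (Ψ : Finset G), c * c = 1 → Fintype.card G = 2 * g → 4 ∣ g →
  (∀ x, Odd (M x)) → (∀ x, M (c * x) = M x) → χ₀ c = -1 → χ₀ ^ 2 = 1 → χ c = -1 →
  χ ^ (2 ^ a) = 1 → Ψ ∈ types c → sInt M χ₀ Ψ % 4 = 2 → wSum M χ Ψ ≠ 0

/-- **JOB CNTW** (uses `S_TRA`, `S_CNT` as hypotheses). One half of all types have an odd weighted
parity.
Proof: the map which exchanges `1 ∈ Ψ` and `c` (`Ψ ↦ symmDiff Ψ {1, c}`) is an involution on the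
types, it changes `sInt M χ₀ Ψ` by `± 2 M 1` (as `M c = M 1` and `χ₀ c = -1`), which is `2` modulo `4`,
and `sInt M χ₀ Ψ` is a sum of `g` odd numbers, so it is even. -/
def S_CNTW : Prop := S_TRA → S_CNT → ∀ (G : Type) [CommGroup G] [Fintype G] (c : G) (M : G → ℤ)
  (g : ℕ) (χ₀ : G →* ℂˣ), c * c = 1 → c ≠ 1 → Fintype.card G = 2 * g → 4 ∣ g →
  (∀ x, Odd (M x)) → (∀ x, M (c * x) = M x) → χ₀ c = -1 → χ₀ ^ 2 = 1 →
  2 * ((types c).filter fun Ψ => sInt M χ₀ Ψ % 4 = 2).card = 2 ^ g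

/-- **JOB UNIW** (Mathlib only). As `S_UNI`, with weights. -/
def S_UNIW : Prop := ∀ (G : Type) [CommGroup G] [Fintype G] (c : G) (M : G → ℤ)
  (X : Finset (G →* ℂˣ)) (P : Finset G → Prop), (∀ χ ∈ X, χ⁻¹ ∈ X) → (∀ χ ∈ X, 3 ≤ orderOf χ) →
  2 * ((types c).filter fun Ψ => P Ψ ∧ ∃ χ ∈ X, wSum M χ Ψ = 0).card ≤
    ∑ χ ∈ X, ((killedW c M χ).filter P).card

/-- **JOB MAINAW** (uses the other statements as hypotheses). As `S_MAINA`, with odd weights.
Proof: as for `S_MAINA`, with `sInt M χ₀ Ψ % 4 = 2` for `OddOn χ₀ Ψ`; by `S_SIXW` and `S_RHO` there are at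
most `2 ^ g * rho k * rho (2 k) / 2 ≤ 2 ^ g * √2 / (2 π k) = 2 ^ g * 3 √2 / (2 π g)` types for one
character of order six. -/
def S_MAINAW : Prop := S_RHO → S_TOT → S_RATE → S_ELO → S_LOW → S_TRA → S_TRAW → S_CHIW → S_HAL →
  S_SIXW → S_PARW → S_TWOW → S_CNT → S_CNTW → S_UNIW →
  ∃ g₀ : ℕ, ∀ (G : Type) [CommGroup G] [Fintype G] (c : G) (M : G → ℤ) (g : ℕ) (χ₀ : G →* ℂˣ),
    g₀ ≤ g → c * c = 1 → c ≠ 1 → Fintype.card G = 2 * g → 4 ∣ g → (∀ x, Odd (M x)) →
    (∀ x, M (c * x) = M x) → χ₀ c = -1 → χ₀ ^ 2 = 1 →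
    (4 / 25 : ℝ) * 2 ^ g ≤ (((goodW c M).card : ℕ) : ℝ)

/-- **JOB MAINBW** (uses the other statements as hypotheses). As `S_MAINB`, with nonzero weights. -/
def S_MAINBW : Prop := S_RHO → S_TOT → S_RATE → S_ELO → S_LOW → S_TRA → S_TRAW → S_CHIW → S_HAL →
  S_SIXW → S_CNT → S_UNIW →
  ∃ g₀ : ℕ, ∀ (G : Type) [CommGroup G] [Fintype G] (c : G) (M : G → ℤ) (g : ℕ), g₀ ≤ g →
    c * c = 1 → c ≠ 1 → Fintype.card G = 2 * g → (∀ x, M x ≠ 0) → (∀ x, M (c * x) = M x) →
    (¬ 4 ∣ g ∨ ∀ χ : G →* ℂˣ, χ c = -1 → χ ^ 2 ≠ 1) →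
    (4 / 25 : ℝ) * 2 ^ g ≤ (((goodW c M).card : ℕ) : ℝ)

/-- **JOB FOUW** (Mathlib only). As `S_FOU`, with weights. -/
def S_FOUW : Prop := ∀ (G : Type) [CommGroup G] [Fintype G] (c : G) (M : G → ℤ) (Ψ : Finset G)
  (m : G → ℤ), c * c = 1 → (∀ x, M (c * x) = M x) → Ψ ∈ goodW c M → (∀ x, m (c * x) = - m x) →
  (∀ y, ∑ x, m x * ((if y * x ∈ Ψ then 1 else -1) * M (y * x)) = 0) → m = 0

end Pool.Agent.Q29.AB
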