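import Mathlib
import Pool.Agent.Q29.AB.Stm
import Pool.Agent.TH170.MF.Field

/-!
# Abelian CM fields: from types of the Galois group to CM types
-/

set_option autoImplicit false
set_option linter.unusedSectionVars false

open scoped Classical

namespace Pool.Agent.Q29.AB

open NumberField Module Finset Pool.Agent.H204R3.CM Pool.Agent.H977R3.CM Pool.Agent.TH170.CM
  Pool.Agent.TH170.MF

/-- A CM type whose sign function has no antisymmetric relations between its translates. -/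
def NoRel {E : Type*} [Field E] [NumberField E] (Φ : Set (E →+* ℂ)) : Prop :=
  ∀ m : (E →+* ℂ) → ℤ, (∀ φ, m (ComplexEmbedding.conjugate φ) = -m φ) →
    (∀ σ : ℂ ≃+* ℂ, ∑ φ, m φ * sgn Φ ((σ : ℂ →+* ℂ).comp φ) = 0) → m = 0

theorem NoRel.not_degenerate {E : Type*} [Field E] [NumberField E] {Φ : Set (E →+* ℂ)}
    (h : NoRel Φ) : ¬ Degenerate Φ := by
  rintro ⟨b, hb0, hbc, hrel⟩
  exact hb0 (h b hbc hrel)

section

variable {E : Type} [Field E]

/-- The embedding `φ₀ ∘ σ`. -/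
def emb (φ₀ : E →+* ℂ) (σ : E ≃+* E) : E →+* ℂ := φ₀.comp (σ : E →+* E)

variable [NumberField E] {G : Type} [CommGroup G] [Fintype G] (α : G ≃* (E ≃ₐ[ℚ] E))
  (φ₀ : E →+* ℂ)

theorem emb_injective : Function.Injective fun x : G => emb φ₀ (α x : E ≃+* E) := by
  intro σ τ h
  apply α.injective
  ext x
  have h1 := congrArg (fun f : E →+* ℂ => f x) h
  exact φ₀.injective h1

/-- The complex conjugation as an element of the Galois group. -/
noncomputable def cc (E : Type) [Field E] [NumberField E] [IsCMField E] : E ≃ₐ[ℚ] E :=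
  (IsCMField.complexConj E).restrictScalars ℚ

theorem cc_apply [IsCMField E] (x : E) : φ₀ (cc E x) = starRingEnd ℂ (φ₀ x) :=
  IsCMField.complexEmbedding_complexConj E φ₀ x

/-- The CM type given by a type of the Galois group. -/
def typeOf (Ψ : Finset G) : Set (E →+* ℂ) := {φ | ∃ x ∈ Ψ, emb φ₀ (α x : E ≃+* E) = φ}

theorem mem_typeOf (Ψ : Finset G) (x : G) : emb φ₀ (α x : E ≃+* E) ∈ typeOf α φ₀ Ψ ↔ x ∈ Ψ := by
  constructor
  · rintro ⟨y, hy, h⟩
    rw [← emb_injective α φ₀ h]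
    exact hy
  · exact fun h => ⟨x, h, rfl⟩

theorem typeOf_injective : Function.Injective (typeOf α φ₀) := by
  intro Ψ Ψ' h
  ext x
  rw [← mem_typeOf α φ₀, h, mem_typeOf]

variable [IsGalois ℚ E]

theorem emb_bijective : Function.Bijective fun x : G => emb φ₀ (α x : E ≃+* E) := by
  rw [Fintype.bijective_iff_injective_and_card]
  refine ⟨emb_injective α φ₀, ?_⟩
  rw [Embeddings.card, ← IsGalois.card_aut_eq_finrank ℚ E, ← Nat.card_eq_fintype_card]
  exact Nat.card_congr α.toEquiv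

variable [IsCMField E]

theorem conj_emb {c : G} (hc : α c = cc E) (x : G) :
    ComplexEmbedding.conjugate (emb φ₀ (α x : E ≃+* E)) = emb φ₀ (α (c * x) : E ≃+* E) := by
  ext y
  change starRingEnd ℂ (φ₀ (α x y)) = φ₀ (α (c * x) y)
  rw [map_mul, hc, AlgEquiv.mul_apply, cc_apply]

theorem isCMType_typeOf {c : G} (hc : α c = cc E) {Ψ : Finset G} (hΨ : Ψ ∈ types c) :
    IsCMType (typeOf α φ₀ Ψ) := by
  intro φ
  obtain ⟨x, rfl⟩ := (emb_bijective α φ₀).2 φ
  have h1 := (mem_filter.1 hΨ).2 x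
  change emb φ₀ (α x : E ≃+* E) ∈ typeOf α φ₀ Ψ ↔
    ComplexEmbedding.conjugate (emb φ₀ (α x : E ≃+* E)) ∉ typeOf α φ₀ Ψ
  rw [conj_emb α φ₀ hc, mem_typeOf, mem_typeOf, h1, not_not]

theorem noRel_typeOf (hF : S_FOU) {c : G} (hc : α c = cc E) (hcc : c * c = 1) {Ψ : Finset G}
    (hΨ : Ψ ∈ good c) : NoRel (typeOf α φ₀ Ψ) := by
  intro m hm hrel
  have h1 : (fun x : G => m (emb φ₀ (α x : E ≃+* E))) = 0 := by
    refine hF G c Ψ _ hcc hΨ ?_ ?_
    · intro x
      rw [← conj_emb α φ₀ hc, hm]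
    · intro y
      obtain ⟨σ, hσ⟩ := exists_comp_eq E φ₀ (emb φ₀ (α y : E ≃+* E))
      rw [← hrel σ]
      refine Fintype.sum_bijective _ (emb_bijective α φ₀) _ _ fun x => ?_
      have h2 : (σ : ℂ →+* ℂ).comp (emb φ₀ (α x : E ≃+* E)) = emb φ₀ (α (y * x) : E ≃+* E) := by
        ext z
        have h3 := congrArg (fun f : E →+* ℂ => f (α x z)) hσ
        change σ (φ₀ (α x z)) = φ₀ (α (y * x) z)
        rw [map_mul, AlgEquiv.mul_apply]
        exact h3
      rw [h2]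
      unfold sgn
      simp only [mem_typeOf]
  funext φ
  obtain ⟨x, rfl⟩ := (emb_bijective α φ₀).2 φ
  exact congrFun h1 x

theorem cc_mul_cc : cc E * cc E = 1 := by
  ext x
  exact IsCMField.complexConj_apply_apply E x

theorem cc_ne_one : cc E ≠ 1 := by
  intro h
  apply IsCMField.complexConj_ne_one E
  ext x
  exact congrArg (fun f : E ≃ₐ[ℚ] E => f x) h

end

/-- The theorem for groups. -/
def GroupTheorem : Prop := ∃ g₀ : ℕ, ∀ (G : Type) [CommGroup G] [Fintype G] (c : G) (g : ℕ),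
  g₀ ≤ g → c * c = 1 → c ≠ 1 → Fintype.card G = 2 * g →
    (4 / 25 : ℝ) * 2 ^ g ≤ (((good c).card : ℕ) : ℝ)

/-- The theorem for abelian CM fields. -/
def FieldTheorem : Prop := ∃ g₀ : ℕ, ∀ (E : Type) [Field E] [NumberField E] [IsCMField E]
  [IsGalois ℚ E] (g : ℕ), (∀ a b : E ≃ₐ[ℚ] E, a * b = b * a) → g₀ ≤ g →
    finrank ℚ E = 2 * g →
    (4 / 25 : ℝ) * 2 ^ g ≤ (({Φ : Set (E →+* ℂ) | IsCMType Φ ∧ NoRel Φ}.ncard : ℕ) : ℝ)

theorem fieldTheorem (hF : S_FOU) (h : GroupTheorem) : FieldTheorem := by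
  obtain ⟨g₀, h⟩ := h
  refine ⟨g₀, ?_⟩
  intro E _ _ _ _ g hab hg0 hg
  let inst : CommGroup (E ≃ₐ[ℚ] E) := { AlgEquiv.aut with mul_comm := hab }
  let G := E ≃ₐ[ℚ] E
  let α : @MulEquiv G (E ≃ₐ[ℚ] E) inst.toMul _ := MulEquiv.refl _
  obtain ⟨φ₀⟩ : Nonempty (E →+* ℂ) := inferInstance
  have hcard : Fintype.card G = 2 * g := by
    rw [← Nat.card_eq_fintype_card, IsGalois.card_aut_eq_finrank ℚ E, hg]
  refine (h G (cc E) g hg0 cc_mul_cc cc_ne_one hcard).trans ?_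
  rw [Nat.cast_le]
  have h1 : (typeOf α φ₀) '' (good (cc E : G) : Set (Finset G)) ⊆
      {Φ : Set (E →+* ℂ) | IsCMType Φ ∧ NoRel Φ} := by
    rintro _ ⟨Ψ, hΨ, rfl⟩
    have h2 : Ψ ∈ good (cc E : G) := hΨ
    exact ⟨isCMType_typeOf α φ₀ rfl (mem_filter.1 h2).1,
      noRel_typeOf α φ₀ hF rfl cc_mul_cc h2⟩
  refine le_trans ?_ (Set.ncard_le_ncard h1 (Set.toFinite _))
  rw [Set.ncard_image_of_injective _ (typeOf_injective α φ₀), Set.ncard_coe_finset]

end Pool.Agent.Q29.AB
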