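import Mathlib
import Pool.Agent.Q29.AB.Stm2
import Pool.Agent.Q29.AB.Field
import Pool.Agent.Q29.OS.Rel

/-!
# Abelian CM fields: from types of the Galois group to CM types, with weights
-/

set_option autoImplicit false
set_option linter.unusedSectionVars false

open scoped Classical

namespace Pool.Agent.Q29.AB

open NumberField Module Finset Pool.Agent.H204R3.CM Pool.Agent.H977R3.CM Pool.Agent.TH170.CM
  Pool.Agent.TH170.MF Pool.Agent.Q29.OS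

section

variable {E : Type} [Field E] [NumberField E] {G : Type} [CommGroup G] [Fintype G]
  (α : G ≃* (E ≃ₐ[ℚ] E)) (φ₀ : E →+* ℂ) [IsGalois ℚ E] [IsCMField E]

theorem noRelations_typeOf (hF : S_FOUW) {c : G} (hc : α c = cc E) (hcc : c * c = 1)
    {M : (E →+* ℂ) → ℤ} (hM : ∀ φ, M (ComplexEmbedding.conjugate φ) = M φ) {Ψ : Finset G}
    (hΨ : Ψ ∈ goodW c fun x => M (emb φ₀ (α x : E ≃+* E))) :
    NoRelations M (typeOf α φ₀ Ψ) := by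
  intro m hm hrel
  have h1 : (fun x : G => m (emb φ₀ (α x : E ≃+* E))) = 0 := by
    refine hF G c (fun x => M (emb φ₀ (α x : E ≃+* E))) Ψ _ hcc ?_ hΨ ?_ ?_
    · intro x
      rw [← conj_emb α φ₀ hc, hM]
    · intro x
      rw [← conj_emb α φ₀ hc, hm]
    · intro y
      obtain ⟨σ, hσ⟩ := exists_comp_eq E φ₀ (emb φ₀ (α y : E ≃+* E))
      rw [← hrel σ]
      refine Fintype.sum_bijective _ (emb_bijective α φ₀) _ _ fun x => ?_
      have h2 : (σ : ℂ →+* ℂ).comp (emb φ₀ (α x : E ≃+* E)) = emb φ₀ (α (y * x) : E ≃+* E) := by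
        ext z
        have h3 := congrArg (fun f : E →+* ℂ => f (α x z)) hσ
        change σ (φ₀ (α x z)) = φ₀ (α (y * x) z)
        rw [map_mul, AlgEquiv.mul_apply]
        exact h3
      rw [h2]
      unfold sgn
      simp only [mem_typeOf]
  funext φ
  obtain ⟨x, rfl⟩ := (emb_bijective α φ₀).2 φ
  exact congrFun h1 x

end

/-- The theorem for groups with odd weights. -/
def GroupTheoremW : Prop := ∃ g₀ : ℕ, ∀ (G : Type) [CommGroup G] [Fintype G] (c : G) (M : G → ℤ)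
  (g : ℕ), g₀ ≤ g → c * c = 1 → c ≠ 1 → Fintype.card G = 2 * g → (∀ x, Odd (M x)) →
    (∀ x, M (c * x) = M x) → (4 / 25 : ℝ) * 2 ^ g ≤ (((goodW c M).card : ℕ) : ℝ)

/-- The theorem for abelian CM fields with odd weights. -/
def FieldTheoremW : Prop := ∃ g₀ : ℕ, ∀ (E : Type) [Field E] [NumberField E] [IsCMField E]
  [IsGalois ℚ E] (M : (E →+* ℂ) → ℤ) (g : ℕ), (∀ a b : E ≃ₐ[ℚ] E, a * b = b * a) →
    (∀ φ, Odd (M φ)) → (∀ φ, M (ComplexEmbedding.conjugate φ) = M φ) → g₀ ≤ g →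
    finrank ℚ E = 2 * g → (4 / 25 : ℝ) * 2 ^ g ≤
      (({Φ : Set (E →+* ℂ) | IsCMType Φ ∧ NoRelations M Φ}.ncard : ℕ) : ℝ)

theorem groupTheoremW
    (hA : ∃ g₀ : ℕ, ∀ (G : Type) [CommGroup G] [Fintype G] (c : G) (M : G → ℤ) (g : ℕ)
      (χ₀ : G →* ℂˣ), g₀ ≤ g → c * c = 1 → c ≠ 1 → Fintype.card G = 2 * g → 4 ∣ g →
      (∀ x, Odd (M x)) → (∀ x, M (c * x) = M x) → χ₀ c = -1 → χ₀ ^ 2 = 1 →
      (4 / 25 : ℝ) * 2 ^ g ≤ (((goodW c M).card : ℕ) : ℝ))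
    (hB : ∃ g₀ : ℕ, ∀ (G : Type) [CommGroup G] [Fintype G] (c : G) (M : G → ℤ) (g : ℕ), g₀ ≤ g →
      c * c = 1 → c ≠ 1 → Fintype.card G = 2 * g → (∀ x, M x ≠ 0) → (∀ x, M (c * x) = M x) →
      (¬ 4 ∣ g ∨ ∀ χ : G →* ℂˣ, χ c = -1 → χ ^ 2 ≠ 1) →
      (4 / 25 : ℝ) * 2 ^ g ≤ (((goodW c M).card : ℕ) : ℝ)) : GroupTheoremW := by
  obtain ⟨g₁, hA⟩ := hA
  obtain ⟨g₂, hB⟩ := hB
  refine ⟨max g₁ g₂, ?_⟩
  intro G _ _ c M g hg hc hc1 hcard hodd hM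
  by_cases h : 4 ∣ g ∧ ∃ χ₀ : G →* ℂˣ, χ₀ c = -1 ∧ χ₀ ^ 2 = 1
  · obtain ⟨h4, χ₀, h1, h2⟩ := h
    exact hA G c M g χ₀ ((le_max_left _ _).trans hg) hc hc1 hcard h4 hodd hM h1 h2
  · refine hB G c M g ((le_max_right _ _).trans hg) hc hc1 hcard (fun x => ?_) hM ?_
    · intro h0
      have h1 := hodd x
      rw [h0] at h1
      exact absurd h1 (by decide)
    · by_cases h4 : 4 ∣ g
      · refine Or.inr fun χ h1 h2 => h ⟨h4, χ, h1, h2⟩
      · exact Or.inl h4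

theorem fieldTheoremW (hF : S_FOUW) (h : GroupTheoremW) : FieldTheoremW := by
  obtain ⟨g₀, h⟩ := h
  refine ⟨g₀, ?_⟩
  intro E _ _ _ _ M g hab hodd hM hg0 hg
  let inst : CommGroup (E ≃ₐ[ℚ] E) := { AlgEquiv.aut with mul_comm := hab }
  let G := E ≃ₐ[ℚ] E
  let α : @MulEquiv G (E ≃ₐ[ℚ] E) inst.toMul _ := MulEquiv.refl _
  obtain ⟨φ₀⟩ : Nonempty (E →+* ℂ) := inferInstance
  have hcard : Fintype.card G = 2 * g := by
    rw [← Nat.card_eq_fintype_card, IsGalois.card_aut_eq_finrank ℚ E, hg]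
  have hMc : ∀ x : G, M (emb φ₀ (α (cc E * x) : E ≃+* E)) = M (emb φ₀ (α x : E ≃+* E)) := by
    intro x
    rw [← conj_emb α φ₀ (c := (cc E : G)) rfl, hM]
  refine (h G (cc E) (fun x => M (emb φ₀ (α x : E ≃+* E))) g hg0 cc_mul_cc cc_ne_one hcard
    (fun x => hodd _) hMc).trans ?_
  rw [Nat.cast_le]
  have h1 : (typeOf α φ₀) '' (goodW (cc E : G) (fun x => M (emb φ₀ (α x : E ≃+* E))) :
      Set (Finset G)) ⊆ {Φ : Set (E →+* ℂ) | IsCMType Φ ∧ NoRelations M Φ} := by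
    rintro _ ⟨Ψ, hΨ, rfl⟩
    have h2 : Ψ ∈ goodW (cc E : G) (fun x => M (emb φ₀ (α x : E ≃+* E))) := hΨ
    exact ⟨isCMType_typeOf α φ₀ rfl (mem_filter.1 h2).1,
      noRelations_typeOf α φ₀ hF rfl cc_mul_cc hM h2⟩
  refine le_trans ?_ (Set.ncard_le_ncard h1 (Set.toFinite _))
  rw [Set.ncard_image_of_injective _ (typeOf_injective α φ₀), Set.ncard_coe_finset]

end Pool.Agent.Q29.AB
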