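import Mathlib
import Pool.Agent.Q29.AB.FieldW
import Pool.Agent.Q261.AB.RHO
import Pool.Agent.Q261.AB.TOT
import Pool.Agent.Q261.AB.RATE
import Pool.Agent.Q154.AB.TRA
import Pool.Agent.Q154.AB.CNT
import Pool.Agent.Q178.AB.ELO
import Pool.Agent.Q177.AB.SIXW
import Pool.Agent.Q208.AB.TRAW
import Pool.Agent.Q208.AB.PARW
import Pool.Agent.Q208.AB.CNTW
import Pool.Agent.Q208.AB.UNIW
import Pool.Agent.Q208.AB.FOUW
import Pool.Agent.Q129.AB.CHIW
import Pool.Agent.Q129.AB.TWOW
import Pool.Agent.Q129.AB.MAINAW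
import Pool.Agent.Q129.AB.MAINBW

/-!
# A positive proportion of all CM types of all abelian CM fields, with odd weights

The lemmas are by helper129, helper154, helper177, helper178, helper208 and helper261 of this team.
-/

set_option autoImplicit false

namespace Pool.Agent.Q29.AB

open Pool.Agent

theorem groupTheoremW_holds : GroupTheoremW :=
  groupTheoremW
    (Q129.AB.t_MAINAW Q261.AB.t_RHO Q261.AB.t_TOT Q261.AB.t_RATE Q178.AB.t_ELO Q178.AB.t_LOW
      Q154.AB.t_TRA Q208.AB.t_TRAW Q129.AB.t_CHIW Q178.AB.t_HAL Q177.AB.t_SIXW Q208.AB.t_PARW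
      Q129.AB.t_TWOW Q154.AB.t_CNT Q208.AB.t_CNTW Q208.AB.t_UNIW)
    (Q129.AB.t_MAINBW Q261.AB.t_RHO Q261.AB.t_TOT Q261.AB.t_RATE Q178.AB.t_ELO Q178.AB.t_LOW
      Q154.AB.t_TRA Q208.AB.t_TRAW Q129.AB.t_CHIW Q178.AB.t_HAL Q177.AB.t_SIXW Q154.AB.t_CNT
      Q208.AB.t_UNIW)

/-- **At least 16 percent of all types of every abelian CM field of large degree have no relations,
for all odd weights.** -/
theorem fieldTheoremW_holds : FieldTheoremW :=
  fieldTheoremW Q208.AB.t_FOUW groupTheoremW_holds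

end Pool.Agent.Q29.AB
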